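import Pool.Agent.Run7.h465.RL.Nonst

/-!
The pentagon with the chain `{c, 1}` satisfies (A) and (B) and is not a lattice of intermediate
models.
-/

set_option autoImplicit false

namespace Run7.h465.RL

open FirstOrder FirstOrder.Language FirstOrder.Ring Pool.Agent.Helper687.Arith

/-- The pentagon `0 < u < c < 1`, `0 < x < 1`. -/
inductive Pent
  | p0 | pu | pc | px | p1
  deriving DecidableEq

namespace Pent

instance : Fintype Pent := ⟨{p0, pu, pc, px, p1}, fun a => by cases a <;> decide⟩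

/-- the order -/
def le : Pent → Pent → Bool
  | p0, _ => true
  | _, p1 => true
  | pu, pu => true
  | pu, pc => true
  | pc, pc => true
  | px, px => true
  | _, _ => false

/-- joins -/
def sup : Pent → Pent → Pent
  | p0, b => b
  | a, p0 => a
  | pu, pu => pu
  | pu, pc => pc
  | pc, pu => pc
  | pc, pc => pc
  | px, px => px
  | _, _ => p1

/-- meets -/
def inf : Pent → Pent → Pent
  | p1, b => b
  | a, p1 => a
  | pu, pu => pu
  | pu, pc => pu
  | pc, pu => pu
  | pc, pc => pc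
  | px, px => px
  | _, _ => p0

instance : Lattice Pent where
  le a b := le a b = true
  sup := sup
  inf := inf
  le_refl := by decide
  le_trans := by decide
  le_antisymm := by decide
  le_sup_left := by decide
  le_sup_right := by decide
  sup_le := by decide
  inf_le_left := by decide
  inf_le_right := by decide
  le_inf := by decide

instance decLe : ∀ a b : Pent, Decidable (a ≤ b) := fun a b =>
  inferInstanceAs (Decidable (le a b = true))

instance : BoundedOrder Pent where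
  top := p1
  bot := p0
  le_top := by decide
  bot_le := by decide

/-- the chain -/
def C : Set Pent := {a | a = pc ∨ a = p1}

instance decC : ∀ a : Pent, Decidable (a ∈ C) := fun a =>
  inferInstanceAs (Decidable (a = pc ∨ a = p1))

theorem chain : IsChain (· ≤ ·) C := by
  rintro a (rfl | rfl) b (rfl | rfl) h
  · exact absurd rfl h
  · exact Or.inl (by decide)
  · exact Or.inr (by decide)
  · exact absurd rfl h

theorem top_mem : (⊤ : Pent) ∈ C := Or.inr rfl

instance decBar : ∀ x c : Pent, Decidable (c ∈ C ∧ x ≤ c ∧ ∀ c' ∈ C, x ≤ c' → c ≤ c') :=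
  fun _ _ => inferInstance

theorem condA : ∀ x y c : Pent,
      (c ∈ C ∧ x ≤ c ∧ ∀ c' ∈ C, x ≤ c' → c ≤ c') →
      (c ∈ C ∧ y ≤ c ∧ ∀ c' ∈ C, y ≤ c' → c ≤ c') →
      (c ∈ C ∧ x ⊓ y ≤ c ∧ ∀ c' ∈ C, x ⊓ y ≤ c' → c ≤ c') := by
  decide +kernel

theorem condB : ∀ w x y z : Pent, x ⊔ w = z → y ⊔ w = z → x ⊓ w = y ⊓ w →
      (∃ c : Pent, (c ∈ C ∧ w ≤ c ∧ ∀ c' ∈ C, w ≤ c' → c ≤ c') ∧ w = c ⊓ z) → x = y := by
  decide +kernel

end Pent

theorem no_pent {N : Type} [PAModel N] [Neg N] [CompatibleRing N] (hneg : ∀ x : N, -x = x)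
    (R : Set N)
    (e : Pent ≃o {K : Language.ring.ElementarySubstructure N // R ⊆ (K : Set N)})
    (he : ∀ l : Pent, l ∈ Pent.C ↔
      ∀ x ∈ (e l).1, ∀ y : N, y ∉ (e l).1 → ∃ z : N, x + z + 1 = y) : False := by
  let P : Pent → Set N := fun l => ((e l).1 : Set N)
  have hcl : ∀ l, Closed (P l) := fun l => closed_of_elem _
  have hR : ∀ l, R ⊆ P l := fun l => (e l).2
  have hle : ∀ l l', l ≤ l' ↔ P l ⊆ P l' := fun l l' => (e.le_iff_le (x := l) (y := l')).symm
  have hsurj : ∀ Q : Set N, Closed Q → R ⊆ Q → ∃ l, P l = Q := by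
    intro Q hQ hRQ
    obtain ⟨K, hK⟩ := exists_elem hneg hQ
    obtain ⟨l, hl⟩ := e.surjective ⟨K, by rw [hK]; exact hRQ⟩
    refine ⟨l, ?_⟩
    show ((e l).1 : Set N) = Q
    rw [hl]
    exact hK
  -- initial segments
  have hinit : ∀ l ∈ Pent.C, ∀ n ∈ P l, ∀ m, m ≤ n → m ∈ P l := by
    intro l hl n hn m hmn
    by_contra hm
    obtain ⟨z, hz⟩ := (he l).mp hl n hn m hm
    have h1 : n < m := by
      rw [lt_iff_exists]
      exact ⟨z, by rw [← add_assoc]; exact hz⟩
    exact absurd hmn (not_le.mpr h1)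
  have hCiff : ∀ l, (∀ n ∈ P l, ∀ m, m ≤ n → m ∈ P l) → l ∈ Pent.C := by
    intro l h
    refine (he l).mpr (fun n hn m hm => ?_)
    have h1 : n < m := by
      by_contra h2
      exact hm (h n hn m (not_lt.mp h2))
    obtain ⟨z, hz⟩ := (lt_iff_exists n m).mp h1
    exact ⟨z, by rw [add_assoc]; exact hz⟩
  -- the supremum of the least model
  obtain ⟨l, hl⟩ := hsurj {n : N | ∃ m ∈ P Pent.p0, n ≤ m} (hcl Pent.p0).sup
    (fun n hn => ⟨n, hR _ hn, le_rfl⟩)
  have hlC : l ∈ Pent.C := by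
    apply hCiff
    rw [hl]
    rintro n ⟨m, hm, hnm⟩ k hk
    exact ⟨m, hm, hk.trans hnm⟩
  have hcl' : P Pent.pc ⊆ P l := by
    rw [← hle]
    rcases hlC with rfl | rfl
    · exact le_rfl
    · exact le_top
  have hcore : P Pent.pc ⊆ P Pent.pu := by
    refine core (P0 := P Pent.p0) (Px := P Pent.px) (hcl _) (hcl _) (hcl _)
      ((hle _ _).mp (by decide)) ((hle _ _).mp (by decide)) ((hle _ _).mp (by decide))
      (hinit _ (Or.inl rfl)) (fun n hn => ?_) ?_ ?_
    · have := hcl' hn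
      rw [hl] at this
      exact this
    · obtain ⟨k, hk⟩ := hsurj (P Pent.px ∩ P Pent.pc) ((hcl _).inter (hcl _))
        (Set.subset_inter (hR _) (hR _))
      rw [← hk, ← hle]
      have h1 : k ≤ Pent.px := (hle _ _).mpr (hk ▸ Set.inter_subset_left)
      have h2 : k ≤ Pent.pc := (hle _ _).mpr (hk ▸ Set.inter_subset_right)
      have h3 : k ≤ Pent.px ⊓ Pent.pc := le_inf h1 h2
      exact h3
    · intro U hU hx hu
      obtain ⟨k, hk⟩ := hsurj U hU ((hR _).trans hx)
      obtain ⟨k', hk'⟩ := hsurj Set.univ (fun _ _ => Set.mem_univ _) (Set.subset_univ _)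
      have h1 : Pent.px ≤ k := (hle _ _).mpr (hk ▸ hx)
      have h2 : Pent.pu ≤ k := (hle _ _).mpr (hk ▸ hu)
      have h3 : Pent.px ⊔ Pent.pu ≤ k := sup_le h1 h2
      have h4 : k' ≤ k := le_trans (le_top (a := k')) h3
      have h5 := (hle _ _).mp h4
      rw [hk', hk] at h5
      exact Set.univ_subset_iff.mp h5
  have h6 : Pent.pc ≤ Pent.pu := (hle _ _).mpr hcore
  exact absurd h6 (by decide)

end Run7.h465.RL
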