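import Pool.Agent.Run7.h465.RL.PAL

/-!
Translation between the language of arithmetic and the language of rings, for semirings in which
negation is the identity.
-/

set_option autoImplicit false

universe u w

namespace Run7.h465.RL

open FirstOrder FirstOrder.Language FirstOrder.Ring Pool.Agent.Helper687.Arith

/-! ### from arithmetic to rings -/

/-- the operations of arithmetic on terms of rings -/
def opRing {α : Type w} : {k : ℕ} → ArithFunc k → (Fin k → Language.ring.Term α) →
    Language.ring.Term α
  | _, .zero, _ => 0
  | _, .succ, ts => ts 0 + 1
  | _, .add, ts => ts 0 + ts 1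
  | _, .mul, ts => ts 0 * ts 1

/-- translation of terms -/
def toRingT {α : Type w} : LA.Term α → Language.ring.Term α
  | .var i => .var i
  | .func f ts => opRing f (fun i => toRingT (ts i))

/-- translation of formulas -/
def toRing {α : Type w} {n : ℕ} (φ : LA.BoundedFormula α n) : Language.ring.BoundedFormula α n :=
  φ.mapTermRel (fun _ => toRingT) (fun _ R => (R : Empty).elim) (fun _ => id)

/-- the operations of rings on terms of arithmetic -/
def opLA {α : Type w} : {k : ℕ} → ringFunc k → (Fin k → LA.Term α) → LA.Term α
  | _, .zero, _ => O
  | _, .one, _ => Sc O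
  | _, .neg, ts => ts 0
  | _, .add, ts => Pl (ts 0) (ts 1)
  | _, .mul, ts => Ti (ts 0) (ts 1)

/-- translation of terms -/
def toLAT {α : Type w} : Language.ring.Term α → LA.Term α
  | .var i => .var i
  | .func f ts => opLA f (fun i => toLAT (ts i))

/-- translation of formulas -/
def toLA {α : Type w} {n : ℕ} (φ : Language.ring.BoundedFormula α n) : LA.BoundedFormula α n :=
  φ.mapTermRel (fun _ => toLAT) (fun _ R => (R : Empty).elim) (fun _ => id)

section

variable {M : Type u} [CommSemiring M] [Neg M] [CompatibleRing M]

theorem realize_toRingT {α : Type w} (t : LA.Term α) (v : α → M) :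
    (toRingT t).realize v = t.realize v := by
  induction t with
  | var i => rfl
  | @func l f ts ih =>
    have h : (fun i => (toRingT (ts i)).realize v) = fun i => (ts i).realize v := funext ih
    change (opRing f (fun i => toRingT (ts i))).realize v =
      Structure.funMap f (fun i => (ts i).realize v)
    rw [← h]
    cases f
    · exact realize_zero v
    · show (_ + 1 : Language.ring.Term α).realize v = _
      rw [realize_add, realize_one]
      rfl
    · exact realize_add _ _ v
    · exact realize_mul _ _ v

theorem realize_toRing {α : Type w} {n : ℕ} (φ : LA.BoundedFormula α n) (v : α → M)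
    (xs : Fin n → M) : (toRing φ).Realize v xs ↔ φ.Realize v xs :=
  BoundedFormula.realize_mapTermRel_id (fun _ t _ => realize_toRingT t _)
    (fun _ R => (R : Empty).elim)

theorem realize_toLAT (hneg : ∀ x : M, -x = x) {α : Type w} (t : Language.ring.Term α)
    (v : α → M) : (toLAT t).realize v = t.realize v := by
  induction t with
  | var i => rfl
  | @func l f ts ih =>
    have h : (fun i => (toLAT (ts i)).realize v) = fun i => (ts i).realize v := funext ih
    change (opLA f (fun i => toLAT (ts i))).realize v =
      Structure.funMap f (fun i => (ts i).realize v)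
    rw [← h]
    cases f
    · exact (CompatibleRing.funMap_add (R := M) (fun i => (toLAT (ts i)).realize v)).symm
    · exact (CompatibleRing.funMap_mul (R := M) (fun i => (toLAT (ts i)).realize v)).symm
    · refine Eq.trans ?_ (CompatibleRing.funMap_neg (R := M)
        (fun i => (toLAT (ts i)).realize v)).symm
      exact (hneg _).symm
    · exact (CompatibleRing.funMap_zero (R := M) (fun i => (toLAT (ts i)).realize v)).symm
    · refine Eq.trans ?_ (CompatibleRing.funMap_one (R := M)
        (fun i => (toLAT (ts i)).realize v)).symm
      exact zero_add (1 : M)

theorem realize_toLA (hneg : ∀ x : M, -x = x) {α : Type w} {n : ℕ}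
    (φ : Language.ring.BoundedFormula α n) (v : α → M) (xs : Fin n → M) :
    (toLA φ).Realize v xs ↔ φ.Realize v xs :=
  BoundedFormula.realize_mapTermRel_id (fun _ t _ => realize_toLAT hneg t _)
    (fun _ R => (R : Empty).elim)

end

end Run7.h465.RL
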