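import Pool.Agent.Run7.h465.RL.Elem

/-!
Models of the axioms as ordered semirings; transfer along elementary embeddings in the language of
rings.
-/

set_option autoImplicit false

universe u w

namespace Run7.h465.RL

open FirstOrder FirstOrder.Language FirstOrder.Ring Pool.Agent.Helper687.Arith

theorem exists_PAModel (M : Type u) [inst : LA.Structure M] [hPA : M ⊨ PA] :
    ∃ i : PAModel M, @standard M i.toCommSemiring = inst := by
  let i1 : CommSemiring M := rawSemiring M
  let i2 : LinearOrder M := rawOrder M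
  have hle : ∀ x y : M, x ≤ y ↔ ∃ z, x + z = y := fun x y => Iff.rfl
  have hcanc : ∀ {x y z : M}, x + z = y + z → x = y := fun {x y z} h => ra_cancel h
  have hlt : ∀ x y : M, x < y ↔ ∃ z, x + (z + 1) = y := by
    intro x y
    rw [lt_iff_le_and_ne, hle]
    constructor
    · rintro ⟨⟨z, rfl⟩, hne⟩
      rcases cases_rs z with h | ⟨w, rfl⟩
      · exfalso
        apply hne
        rw [h]
        exact (ra_rz x).symm
      · exact ⟨w, by show ra x (ra w (rs rz)) = ra x (rs w); rw [ra_one]⟩
    · rintro ⟨z, rfl⟩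
      refine ⟨⟨z + 1, rfl⟩, fun h => ?_⟩
      have h1 : (z + 1) + x = 0 + x := by rw [add_comm, ← h, zero_add]
      have h2 : z + 1 = 0 := hcanc h1
      have h3 : ra z (rs rz) = rz := h2
      rw [ra_one] at h3
      exact rs_ne _ h3
  have i3 : IsOrderedCancelAddMonoid M := {
    add_le_add_left := by
      rintro x y ⟨z, rfl⟩ w
      exact ⟨z, by show x + w + z = x + z + w; ring⟩
    le_of_add_le_add_left := by
      rintro x y z ⟨w, h⟩
      refine ⟨w, ?_⟩
      have h1 : x + y + w = x + z := h
      have h2 : (y + w) + x = z + x := by rw [add_comm z x, ← h1]; ring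
      exact hcanc h2 }
  have i4 : IsStrictOrderedRing M := {
    i3 with
    zero_le_one := ⟨1, by show (0 : M) + 1 = 1; rw [zero_add]⟩
    exists_pair_ne := ⟨0, 1, fun h => rs_ne (rz : M) h.symm⟩
    mul_lt_mul_of_pos_left := by
      intro a ha b c hbc
      obtain ⟨z, rfl⟩ := (hlt _ _).mp hbc
      obtain ⟨a', rfl⟩ := (hlt _ _).mp ha
      show (0 + (a' + 1)) * b < (0 + (a' + 1)) * (b + (z + 1))
      rw [hlt]
      exact ⟨a' * z + a' + z, by ring⟩
    mul_lt_mul_of_pos_right := by
      intro a ha b c hbc
      obtain ⟨z, rfl⟩ := (hlt _ _).mp hbc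
      obtain ⟨a', rfl⟩ := (hlt _ _).mp ha
      show b * (0 + (a' + 1)) < (b + (z + 1)) * (0 + (a' + 1))
      rw [hlt]
      exact ⟨a' * z + a' + z, by ring⟩ }
  have i5 : CanonicallyOrderedAdd M := {
    exists_add_of_le := by
      rintro x y ⟨z, rfl⟩
      exact ⟨z, rfl⟩
    le_add_self := fun x y => ⟨y, add_comm _ _⟩
    le_self_add := fun x y => ⟨y, rfl⟩ }
  have hst : @standard M i1 = inst := standard_rawSemiring M
  let i6 : PAModel M := {
    i1, i2, i4, i5 with
    lt_add_one_iff' := by
      intro x y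
      rw [hlt, hle]
      constructor
      · rintro ⟨z, h⟩
        exact ⟨z, hcanc (z := 1) (by rw [← h]; ring)⟩
      · rintro ⟨z, rfl⟩
        exact ⟨z, by ring⟩
    ind' := by
      intro P hP h0 hs x
      have hP' : @Def M inst (fun v => P (v 0)) := by
        rw [← hst]
        exact hP
      refine raw_ind (P := P) hP' h0 (fun x hx => ?_) x
      have := hs x hx
      rwa [show x + 1 = rs x from ra_one x] at this }
  exact ⟨i6, hst⟩


theorem semiring_eq {N : Type u} {i j : CommSemiring N} (h : @standard N i = @standard N j) :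
    i = j := by
  refine CommSemiring.ext ?_ ?_
  · funext x y
    exact congrArg (fun s : LA.Structure N =>
      @Structure.funMap LA N s 2 (ArithFunc.add : LA.Functions 2) ![x, y]) h
  · funext x y
    exact congrArg (fun s : LA.Structure N =>
      @Structure.funMap LA N s 2 (ArithFunc.mul : LA.Functions 2) ![x, y]) h

section

variable {M : Type u} [CommSemiring M] [Neg M] [CompatibleRing M]
  {N : Type w} [CommSemiring N] [Neg N] [CompatibleRing N]

theorem neg_of_emb (hneg : ∀ x : M, -x = x) (f : M ↪ₑ[Language.ring] N) (x : N) : -x = x := by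
  let σ : Language.ring.Sentence := ∀' ((-(&0) : Language.ring.Term (Empty ⊕ Fin 1)) =' &0)
  have h1 : M ⊨ σ := by
    intro x
    show Term.realize _ _ = Term.realize _ _
    rw [realize_neg]
    exact hneg _
  have h2 : N ⊨ σ := (f.map_sentence σ).mp h1
  have h3 := h2 x
  have h4 : Term.realize (Sum.elim default (Fin.snoc default x : Fin 1 → N))
      (-(&0) : Language.ring.Term (Empty ⊕ Fin 1)) =
      Term.realize (Sum.elim default (Fin.snoc default x : Fin 1 → N))
      (&0 : Language.ring.Term (Empty ⊕ Fin 1)) := h3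
  rw [realize_neg] at h4
  exact h4

theorem model_of_emb (hPA : M ⊨ PA) (f : M ↪ₑ[Language.ring] N) : N ⊨ PA := by
  rw [Theory.model_iff] at hPA ⊢
  intro φ hφ
  have h1 : M ⊨ φ := hPA φ hφ
  have h2 : M ⊨ (toRing φ : Language.ring.Sentence) := (realize_toRing φ _ _).mpr h1
  have h3 : N ⊨ (toRing φ : Language.ring.Sentence) := (f.map_sentence _).mp h2
  exact (realize_toRing φ _ _).mp h3

theorem exists_PAModel_of_emb (hPA : M ⊨ PA) (f : M ↪ₑ[Language.ring] N) :
    ∃ j : PAModel N, j.toCommSemiring = ‹CommSemiring N› := by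
  have := model_of_emb hPA f
  obtain ⟨j, hj⟩ := exists_PAModel N
  exact ⟨j, semiring_eq hj⟩

end

end Run7.h465.RL
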