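import Pool.Agent.Helper687.Arith.Proof

/-!
Classes of predicates which are closed under the logical operations, and definability in a model of
arithmetic with parameters from a given set.
-/

set_option autoImplicit false

universe u w

namespace Run7.h465.RL

open FirstOrder FirstOrder.Language Pool.Agent.Helper687.Arith

section

variable {M : Type u} [LA.Structure M]

/-- `D` has the closure properties of a class of definable predicates on sequences. -/
structure DSys (D : ((ℕ → M) → Prop) → Prop) : Prop where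
  congr : ∀ {R S : (ℕ → M) → Prop}, D R → (∀ v, R v ↔ S v) → D S
  bot : D (fun _ => False)
  imp : ∀ {R S : (ℕ → M) → Prop}, D R → D S → D (fun v => R v → S v)
  all : ∀ {S : (ℕ → M) → M → Prop}, D (fun v => S (fun n => v (n + 1)) (v 0)) →
    D (fun v => ∀ a, S v a)
  ren : ∀ (ρ : ℕ → ℕ) {R : (ℕ → M) → Prop}, D R → D (fun v => R (fun n => v (ρ n)))
  eq0 : ∀ m n : ℕ, D (fun v => v m = v n)
  fn : ∀ {k : ℕ} (f : LA.Functions k),
    D (fun v => v 0 = Structure.funMap f (fun i : Fin k => v ((i : ℕ) + 1)))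

/-- functions with graph in `D` -/
def DF (D : ((ℕ → M) → Prop) → Prop) (f : (ℕ → M) → M) : Prop :=
  D (fun v => v 0 = f (fun n => v (n + 1)))

namespace DSys

variable {D : ((ℕ → M) → Prop) → Prop} (H : DSys D)

include H

theorem not {R : (ℕ → M) → Prop} (hR : D R) : D (fun v => ¬ R v) := H.imp hR H.bot

theorem and {R S : (ℕ → M) → Prop} (hR : D R) (hS : D S) : D (fun v => R v ∧ S v) :=
  H.congr (H.not (H.imp hR (H.not hS))) (fun v => by tauto)

theorem or {R S : (ℕ → M) → Prop} (hR : D R) (hS : D S) : D (fun v => R v ∨ S v) :=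
  H.congr (H.imp (H.not hR) hS) (fun v => by tauto)

theorem iff {R S : (ℕ → M) → Prop} (hR : D R) (hS : D S) : D (fun v => R v ↔ S v) :=
  H.congr (H.and (H.imp hR hS) (H.imp hS hR)) (fun v => by tauto)

theorem ex {S : (ℕ → M) → M → Prop} (hR : D (fun v => S (fun n => v (n + 1)) (v 0))) :
    D (fun v => ∃ a, S v a) :=
  H.congr (H.not (H.all (S := fun v a => ¬ S v a) (H.not hR))) (fun v => by simp)

theorem const (p : Prop) : D (fun _ => p) := by
  by_cases h : p
  · exact H.congr (H.not H.bot) (fun _ => by simp [h])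
  · exact H.congr H.bot (fun _ => by simp [h])

theorem fren {f : (ℕ → M) → M} (ρ : ℕ → ℕ) (h : DF D f) : DF D (fun v => f (fun n => v (ρ n))) :=
  H.ren (fun n => match n with | 0 => 0 | n + 1 => ρ n + 1) h

theorem var (n : ℕ) : DF D (fun v => v n) := H.eq0 0 (n + 1)

theorem ex_fin (n : ℕ) : ∀ (S : (ℕ → M) → (Fin n → M) → Prop),
    D (fun v => S (fun i => v (i + n)) (fun j => v j)) → D (fun v => ∃ w : Fin n → M, S v w) := by
  induction n with
  | zero =>
    intro S hS
    refine H.congr hS (fun v => ?_)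
    constructor
    · intro h
      exact ⟨_, h⟩
    · rintro ⟨w, h⟩
      have : w = fun j : Fin 0 => v j := Subsingleton.elim _ _
      rw [this] at h
      exact h
  | succ n ih =>
    intro S hS
    have h1 := ih (fun v w => ∃ a, S v (Fin.cons a w)) (by
      apply H.ex
      refine H.congr hS (fun v => ?_)
      have e1 : (fun j : Fin (n + 1) => v j) = Fin.cons (v 0) (fun j : Fin n => v (j + 1)) := by
        funext j
        refine Fin.cases ?_ (fun j => ?_) j
        · rfl
        · rw [Fin.cons_succ, Fin.val_succ]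
      rw [e1]
      exact Iff.rfl)
    refine H.congr h1 (fun v => ?_)
    constructor
    · rintro ⟨w, a, h⟩
      exact ⟨_, h⟩
    · rintro ⟨w, h⟩
      refine ⟨Fin.tail w, w 0, ?_⟩
      rwa [Fin.cons_self_tail]

theorem and_fin {n : ℕ} {R : Fin n → (ℕ → M) → Prop} (h : ∀ i, D (R i)) :
    D (fun v => ∀ i, R i v) := by
  classical
  have key : ∀ s : Finset (Fin n), D (fun v => ∀ i ∈ s, R i v) := by
    intro s
    induction s using Finset.induction_on with
    | empty => exact H.congr (H.const True) (fun v => by simp)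
    | insert i s _ ih => exact H.congr (H.and (h i) ih) (fun v => by simp)
  exact H.congr (key Finset.univ) (fun v => by simp)

theorem subst_fin {n : ℕ} {R : (Fin n → M) → Prop} (hR : D (fun v => R (fun j => v j)))
    (h : Fin n → (ℕ → M) → M) (hh : ∀ j, DF D (h j)) : D (fun v => R (fun j => h j v)) := by
  have h1 := H.ex_fin n (fun v w => (∀ j, w j = h j v) ∧ R w) (by
    apply H.and
    · apply H.and_fin
      intro j
      exact H.ren (fun i => match i with | 0 => (j : ℕ) | i + 1 => i + n) (hh j)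
    · exact hR)
  refine H.congr h1 (fun v => ?_)
  constructor
  · rintro ⟨w, h2, h3⟩
    have : w = fun j => h j v := funext h2
    rwa [this] at h3
  · intro h2
    exact ⟨_, fun j => rfl, h2⟩

theorem sub1 {R : M → Prop} (h : D (fun v => R (v 0))) {f : (ℕ → M) → M} (hf : DF D f) :
    D (fun v => R (f v)) :=
  H.congr (H.ex (S := fun v a => a = f v ∧ R a) (H.and hf h)) (fun v => by simp)

theorem sub2 {R : M → M → Prop} (h : D (fun v => R (v 0) (v 1))) {f g : (ℕ → M) → M}
    (hf : DF D f) (hg : DF D g) : D (fun v => R (f v) (g v)) := by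
  have h1 := H.subst_fin (n := 2) (R := fun w => R (w 0) (w 1)) h ![f, g] (by
    intro j
    fin_cases j
    · exact hf
    · exact hg)
  exact h1

theorem sub3 {R : M → M → M → Prop} (h : D (fun v => R (v 0) (v 1) (v 2)))
    {f g k : (ℕ → M) → M} (hf : DF D f) (hg : DF D g) (hk : DF D k) :
    D (fun v => R (f v) (g v) (k v)) := by
  have h1 := H.subst_fin (n := 3) (R := fun w => R (w 0) (w 1) (w 2)) h ![f, g, k] (by
    intro j
    fin_cases j
    · exact hf
    · exact hg
    · exact hk)
  exact h1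

theorem eq {f g : (ℕ → M) → M} (hf : DF D f) (hg : DF D g) : D (fun v => f v = g v) :=
  H.sub2 (R := fun a b => a = b) (H.eq0 0 1) hf hg

theorem app {k : ℕ} (f : LA.Functions k) (g : Fin k → (ℕ → M) → M) (hg : ∀ i, DF D (g i)) :
    DF D (fun v => Structure.funMap f (fun i => g i v)) := by
  have h1 := H.subst_fin (n := k + 1)
    (R := fun w => w 0 = Structure.funMap f (fun i : Fin k => w i.succ)) (H.fn f)
    (Fin.cases (fun v => v 0) (fun i v => g i (fun n => v (n + 1)))) (by
      intro j
      refine Fin.cases ?_ (fun j => ?_) j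
      · exact H.var 0
      · exact H.fren (fun n => n + 1) (hg j))
  exact h1

theorem term {α : Type w} (t : LA.Term α) (g : α → (ℕ → M) → M) (hg : ∀ i, DF D (g i)) :
    DF D (fun v => t.realize (fun i => g i v)) := by
  induction t with
  | var i => exact hg i
  | func f ts ih => exact H.app f (fun i v => (ts i).realize (fun i => g i v)) ih

theorem formula {α : Type w} {n : ℕ} (φ : LA.BoundedFormula α n) :
    ∀ (g : α → (ℕ → M) → M) (h : Fin n → (ℕ → M) → M), (∀ i, DF D (g i)) → (∀ j, DF D (h j)) →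
      D (fun v => φ.Realize (fun i => g i v) (fun j => h j v)) := by
  induction φ with
  | falsum =>
    intro g h _ _
    exact H.congr H.bot (fun v => Iff.rfl)
  | @equal n t₁ t₂ =>
    intro g h hg hh
    have e1 : ∀ v : ℕ → M, (Sum.elim (fun i => g i v) (fun j => h j v) : α ⊕ Fin n → M) =
        fun s => (Sum.elim g h s) v := by
      intro v
      funext s
      rcases s with i | j <;> rfl
    have hs : ∀ s, DF D (Sum.elim g h s) := by
      rintro (i | j)
      · exact hg i
      · exact hh j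
    refine H.congr (H.eq (H.term t₁ (Sum.elim g h) hs) (H.term t₂ (Sum.elim g h) hs)) (fun v => ?_)
    show _ ↔ t₁.realize _ = t₂.realize _
    rw [e1]
  | rel R ts => exact (R : Empty).elim
  | imp φ ψ ih1 ih2 =>
    intro g h hg hh
    exact H.congr (H.imp (ih1 g h hg hh) (ih2 g h hg hh)) (fun v => Iff.rfl)
  | @all n φ ih =>
    intro g h hg hh
    refine H.all (S := fun v a => φ.Realize (fun i => g i v)
      (Fin.snoc (fun j => h j v) a : Fin (n + 1) → M)) ?_
    have h1 := ih (fun i v => g i (fun n => v (n + 1)))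
      (Fin.snoc (fun j v => h j (fun n => v (n + 1))) (fun v => v 0) :
        Fin (n + 1) → (ℕ → M) → M) (fun i => H.fren _ (hg i)) (by
          intro j
          refine Fin.lastCases ?_ (fun j => ?_) j
          · rw [Fin.snoc_last]
            exact H.var 0
          · rw [Fin.snoc_castSucc]
            exact H.fren _ (hh j))
    refine H.congr h1 (fun v => ?_)
    have e1 : (fun j => (Fin.snoc (fun j v => h j (fun n => v (n + 1))) (fun v => v 0) :
        Fin (n + 1) → (ℕ → M) → M) j v) =
        (Fin.snoc (fun j => h j (fun n => v (n + 1))) (v 0) : Fin (n + 1) → M) := by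
      funext j
      refine Fin.lastCases ?_ (fun j => ?_) j
      · rw [Fin.snoc_last, Fin.snoc_last]
      · rw [Fin.snoc_castSucc, Fin.snoc_castSucc]
    rw [e1]

end DSys

/-! ### parameters from a set -/

/-- definable with parameters from `X` -/
def DX (X : Set M) (R : (ℕ → M) → Prop) : Prop :=
  ∃ φ : LA.Formula (X ⊕ ℕ), ∀ v : ℕ → M, φ.Realize (Sum.elim (fun x : X => (x : M)) v) ↔ R v

theorem DX_sys (X : Set M) : DSys (DX X) where
  congr := by
    rintro R S ⟨φ, hφ⟩ h
    exact ⟨φ, fun v => (hφ v).trans (h v)⟩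
  bot := ⟨⊥, fun _ => Formula.realize_bot⟩
  imp := by
    rintro R S ⟨φ, hφ⟩ ⟨ψ, hψ⟩
    exact ⟨φ.imp ψ, fun v => by rw [Formula.realize_imp, hφ, hψ]⟩
  all := by
    rintro S ⟨φ, hφ⟩
    let sh : X ⊕ ℕ → (X ⊕ ℕ) ⊕ Fin 1 := fun s => match s with
      | .inl p => .inl (.inl p)
      | .inr 0 => .inr 0
      | .inr (n + 1) => .inl (.inr n)
    refine ⟨(BoundedFormula.relabel (n := 1) sh φ : LA.BoundedFormula (X ⊕ ℕ) 1).all, fun v => ?_⟩
    unfold Formula.Realize
    rw [BoundedFormula.realize_all]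
    refine forall_congr' fun a => ?_
    rw [BoundedFormula.realize_relabel]
    have h1 : (Sum.elim (Sum.elim (fun x : X => (x : M)) v)
        ((Fin.snoc default a : Fin 1 → M) ∘ Fin.castAdd 0) ∘ sh)
        = Sum.elim (fun x : X => (x : M)) (cns a v) := by
      funext s
      rcases s with p' | n
      · rfl
      · cases n with
        | zero => rfl
        | succ n => rfl
    rw [h1]
    have h2 : ((Fin.snoc default a : Fin 1 → M) ∘ Fin.natAdd 1 : Fin 0 → M) = default :=
      Subsingleton.elim _ _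
    refine (iff_of_eq (congrArg (BoundedFormula.Realize φ
      (Sum.elim (fun x : X => (x : M)) (cns a v))) h2)).trans ?_
    exact hφ (cns a v)
  ren := by
    rintro ρ R ⟨φ, hφ⟩
    refine ⟨φ.relabel (Sum.map id ρ), fun v => ?_⟩
    rw [Formula.realize_relabel]
    have : Sum.elim (fun x : X => (x : M)) v ∘ Sum.map id ρ =
        Sum.elim (fun x : X => (x : M)) (fun n => v (ρ n)) := by
      funext s; rcases s with p' | n <;> rfl
    rw [this, hφ]
  eq0 := fun m n =>
    ⟨(Term.var (Sum.inr m)).equal (Term.var (Sum.inr n)), fun _ => Formula.realize_equal⟩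
  fn := by
    intro k f
    refine ⟨(Term.var (Sum.inr 0)).equal
      (Term.func f (fun i : Fin k => Term.var (Sum.inr ((i : ℕ) + 1)))), fun v => ?_⟩
    rw [Formula.realize_equal]
    exact Iff.rfl

theorem DX_param {X : Set M} {x : M} (hx : x ∈ X) : DF (DX X) (fun _ => x) :=
  ⟨(Term.var (Sum.inr 0)).equal (Term.var (Sum.inl ⟨x, hx⟩)), fun _ => Formula.realize_equal⟩

theorem DX_trans {D : ((ℕ → M) → Prop) → Prop} (H : DSys D) {X : Set M}
    (h : ∀ x ∈ X, DF D (fun _ => x)) {R : (ℕ → M) → Prop} (hR : DX X R) : D R := by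
  obtain ⟨φ, hφ⟩ := hR
  have h1 := H.formula φ (Sum.elim (fun (x : X) (_ : ℕ → M) => (x : M)) (fun n v => v n))
    (fun j : Fin 0 => j.elim0) (by
      rintro (x | n)
      · exact h x x.2
      · exact H.var n) (fun j => j.elim0)
  refine H.congr h1 (fun v => ?_)
  rw [← hφ v]
  have e1 : (fun i => (Sum.elim (fun (x : X) (_ : ℕ → M) => (x : M)) (fun n v => v n) :
      X ⊕ ℕ → (ℕ → M) → M) i v) = Sum.elim (fun x : X => (x : M)) v := by
    funext s; rcases s with p' | n <;> rfl
  rw [e1]
  have e2 : (fun j : Fin 0 => (j.elim0 : (ℕ → M) → M) v) = (default : Fin 0 → M) :=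
    Subsingleton.elim _ _
  rw [e2]
  exact Iff.rfl

theorem DX_mono {X Y : Set M} (h : X ⊆ Y) {R : (ℕ → M) → Prop} (hR : DX X R) : DX Y R :=
  DX_trans (DX_sys Y) (fun _ hx => DX_param (h hx)) hR

/-- definable from one of the sets of a directed family -/
def DU (𝓧 : Set (Set M)) (R : (ℕ → M) → Prop) : Prop := ∃ X ∈ 𝓧, DX X R

theorem DU_sys {𝓧 : Set (Set M)} (hne : 𝓧.Nonempty)
    (hdir : ∀ X ∈ 𝓧, ∀ Y ∈ 𝓧, ∃ Z ∈ 𝓧, (∀ x ∈ X, DF (DX Z) (fun _ => x)) ∧
      ∀ x ∈ Y, DF (DX Z) (fun _ => x)) : DSys (DU 𝓧) where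
  congr := by
    rintro R S ⟨X, hX, h⟩ h'
    exact ⟨X, hX, (DX_sys X).congr h h'⟩
  bot := by
    obtain ⟨X, hX⟩ := hne
    exact ⟨X, hX, (DX_sys X).bot⟩
  imp := by
    rintro R S ⟨X, hX, h⟩ ⟨Y, hY, h'⟩
    obtain ⟨Z, hZ, h1, h2⟩ := hdir X hX Y hY
    exact ⟨Z, hZ, (DX_sys Z).imp (DX_trans (DX_sys Z) h1 h) (DX_trans (DX_sys Z) h2 h')⟩
  all := by
    rintro S ⟨X, hX, h⟩
    exact ⟨X, hX, (DX_sys X).all h⟩
  ren := by
    rintro ρ R ⟨X, hX, h⟩
    exact ⟨X, hX, (DX_sys X).ren ρ h⟩
  eq0 := by
    obtain ⟨X, hX⟩ := hne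
    exact fun m n => ⟨X, hX, (DX_sys X).eq0 m n⟩
  fn := by
    obtain ⟨X, hX⟩ := hne
    exact fun f => ⟨X, hX, (DX_sys X).fn f⟩

/-- closed under definability -/
def Closed (P : Set M) : Prop := ∀ y : M, DX P (fun v => v 0 = y) → y ∈ P

theorem Closed.inter {P Q : Set M} (hP : Closed P) (hQ : Closed Q) : Closed (P ∩ Q) := fun y hy =>
  ⟨hP y (DX_mono Set.inter_subset_left hy), hQ y (DX_mono Set.inter_subset_right hy)⟩

/-- The elements definable in a class are closed under definability. -/
theorem closed_of_sys {D : ((ℕ → M) → Prop) → Prop} (H : DSys D) :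
    Closed {y : M | D (fun v => v 0 = y)} := fun _ hy => DX_trans H (fun _ hx => hx) hy

end

end Run7.h465.RL
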