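import Pool.Agent.Run7.h465.RL.Bridge

/-!
Elementary substructures in the language of rings are the sets closed under definability.
-/

set_option autoImplicit false

universe u w

namespace Run7.h465.RL

open FirstOrder FirstOrder.Language FirstOrder.Ring Pool.Agent.Helper687.Arith

section

variable {N : Type u} [PAModel N] [Neg N] [CompatibleRing N]

theorem DX_of_definable (hneg : ∀ x : N, -x = x) {P : Set N} {s : Set (Fin 1 → N)}
    (h : P.Definable Language.ring s) : DX P (fun v => (fun _ : Fin 1 => v 0) ∈ s) := by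
  obtain ⟨φ, hφ⟩ := Set.definable_iff_exists_formula_sum.mp h
  refine ⟨Formula.relabel (Sum.map id (fun i : Fin 1 => (i : ℕ))) (toLA φ), fun v => ?_⟩
  rw [Formula.realize_relabel, hφ]
  have e : (Sum.elim (fun x : P => (x : N)) v ∘ Sum.map id (fun i : Fin 1 => (i : ℕ))) =
      Sum.elim (fun x : P => (x : N)) (fun _ : Fin 1 => v 0) := by
    funext s
    rcases s with s | s
    · rfl
    · rw [Subsingleton.elim s 0]
      rfl
  rw [e]
  exact realize_toLA hneg φ _ _

theorem definable_of_DX {P : Set N} {Q : N → Prop} (h : DX P (fun v => Q (v 0))) :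
    P.Definable Language.ring {v : Fin 1 → N | Q (v 0)} := by
  obtain ⟨φ, hφ⟩ := h
  refine Set.definable_iff_exists_formula_sum.mpr
    ⟨Formula.relabel (Sum.map id (fun _ : ℕ => (0 : Fin 1))) (toRing φ), ?_⟩
  ext v
  have h1 : φ.Realize (Sum.elim (fun x : P => (x : N)) (fun _ : ℕ => v 0)) ↔ Q (v 0) :=
    hφ (fun _ => v 0)
  show Q (v 0) ↔ Formula.Realize _ _
  rw [Formula.realize_relabel, ← h1]
  have e : (Sum.elim (fun x : P => (x : N)) v ∘ Sum.map id (fun _ : ℕ => (0 : Fin 1))) =
      Sum.elim (fun x : P => (x : N)) (fun _ : ℕ => v 0) := by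
    funext s
    rcases s with s | s <;> rfl
  rw [e]
  exact (realize_toRing φ _ _).symm

theorem closed_of_elem (K : Language.ring.ElementarySubstructure N) : Closed (K : Set N) := by
  intro y hy
  obtain ⟨z, hz, hzK⟩ := K.meetsDefinable {y} ⟨y, rfl⟩ (definable_of_DX (Q := fun z => z = y) hy)
  rwa [← Set.mem_singleton_iff.mp hz]

theorem meets_of_closed (hneg : ∀ x : N, -x = x) {P : Set N} (hP : Closed P) :
    Language.ring.MeetsDefinable P := by
  rintro D ⟨x, hx⟩ hD
  have h1 := DX_of_definable hneg hD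
  obtain ⟨z, hzP, hz, _⟩ := hP.least (Q := fun z => z ∈ D) h1 ⟨x, hx⟩
  exact ⟨z, hz, hzP⟩

/-- A closed set as an elementary substructure. -/
theorem exists_elem (hneg : ∀ x : N, -x = x) {P : Set N} (hP : Closed P) :
    ∃ K : Language.ring.ElementarySubstructure N, (K : Set N) = P :=
  ⟨(meets_of_closed hneg hP).toElementarySubstructure, (meets_of_closed hneg hP).closure_eq_self⟩

end

end Run7.h465.RL
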