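import Pool.Agent.Run7.h465.RL.Pent

/-!
The negative answer to Q1 of MP_e2f1c5_lc. Not handed in as a frozen statement: as far as I recall it is contained in
Schmerl, The pentagon as a substructure lattice of models of Peano arithmetic. See
departures/helper465.md.
-/

set_option autoImplicit false
open FirstOrder FirstOrder.Language FirstOrder.Ring

namespace Run7.h465.RL.Final

/-- The negation of the preceding statement: For every finite ranked lattice satisfying (A),(B) and every countable nonstandard model M of PA, some elementary extension N has intermediate-model lattice isomorphic to L, with C matching the models that N end-extends. -/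
theorem result :
    ¬ (∀ (L : Type) [Lattice L] [BoundedOrder L] [Finite L] (C : Set L),
    IsChain (· ≤ ·) C → (⊤ : L) ∈ C →
    (∀ x y c : L,
      (c ∈ C ∧ x ≤ c ∧ ∀ c' ∈ C, x ≤ c' → c ≤ c') →
      (c ∈ C ∧ y ≤ c ∧ ∀ c' ∈ C, y ≤ c' → c ≤ c') →
      (c ∈ C ∧ x ⊓ y ≤ c ∧ ∀ c' ∈ C, x ⊓ y ≤ c' → c ≤ c')) →
    (∀ w x y z : L, x ⊔ w = z → y ⊔ w = z → x ⊓ w = y ⊓ w →
      (∃ c : L, (c ∈ C ∧ w ≤ c ∧ ∀ c' ∈ C, w ≤ c' → c ≤ c') ∧ w = c ⊓ z) → x = y) →
    ∀ (M : Type) [CommSemiring M] [Neg M] [CompatibleRing M],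
      Countable M →
      (∀ x : M, -x = x) →
      (∀ x : M, x + 1 ≠ 0) →
      (∀ x y : M, x + 1 = y + 1 → x = y) →
      (∀ s : Set (Fin 1 → M), (Set.univ : Set M).Definable Language.ring s →
        (fun _ : Fin 1 => (0 : M)) ∈ s →
        (∀ x : M, (fun _ : Fin 1 => x) ∈ s → (fun _ : Fin 1 => x + 1) ∈ s) →
        ∀ x : M, (fun _ : Fin 1 => x) ∈ s) →
      (∃ a : M, ∀ n : ℕ, (n : M) ≠ a) →
      ∃ (N : Type) (_ : CommSemiring N) (_ : Neg N) (_ : CompatibleRing N)
        (f : M ↪ₑ[Language.ring] N)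
        (e : L ≃o {K : Language.ring.ElementarySubstructure N // Set.range f ⊆ (K : Set N)}),
        ∀ l : L, l ∈ C ↔
          ∀ x ∈ (e l).1, ∀ y : N, y ∉ (e l).1 → ∃ z : N, x + z + 1 = y) := by
  intro h
  obtain ⟨M, iM, hcount, hPA, a, ha⟩ := Run7.h465.RL.exists_nonstandard
  let _ : Neg M := ⟨id⟩
  let _ : CompatibleRing M := compatibleRingOfRing M
  have hneg : ∀ x : M, -x = x := fun _ => rfl
  obtain ⟨N, i1, i2, i3, f, e, he⟩ := h Run7.h465.RL.Pent Run7.h465.RL.Pent.C
    Run7.h465.RL.Pent.chain Run7.h465.RL.Pent.top_mem Run7.h465.RL.Pent.condA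
    Run7.h465.RL.Pent.condB M hcount hneg
    (fun x hx => absurd (hx ▸ Pool.Agent.Helper687.Arith.zero_lt_succ' x) (lt_irrefl 0))
    (fun x y hxy => add_right_cancel hxy)
    (fun s hs h0 h1 x => Pool.Agent.Helper687.Arith.ind
      (P := fun x => (fun _ : Fin 1 => x) ∈ s)
      (Run7.h465.RL.Def_of_DX (Run7.h465.RL.DX_of_definable hneg hs)) h0 h1 x)
    ⟨a, ha⟩
  have hnegN : ∀ x : N, -x = x := Run7.h465.RL.neg_of_emb hneg f
  obtain ⟨j, rfl⟩ := Run7.h465.RL.exists_PAModel_of_emb hPA f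
  exact Run7.h465.RL.no_pent hnegN (Set.range f) e he

end Run7.h465.RL.Final
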