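import Pool.Agent.Run7.h465.RL.Nonst

/-!
The modular law at an initial segment.
-/

set_option autoImplicit false

universe u w

namespace Run7.h465.RL

open FirstOrder FirstOrder.Language FirstOrder.Ring Pool.Agent.Helper687.Arith

section

variable {M : Type u} [PAModel M]

/-- Coding: bounded parts of relations definable over `Px` are in `P0`. -/
theorem law {P0 Pu Pc Px W : Set M} (h0 : Closed P0) (hu : Closed Pu) (hx : Closed Px)
    (h0u : P0 ⊆ Pu) (h0x : P0 ⊆ Px) (huc : Pu ⊆ Pc)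
    (hinit : ∀ n ∈ Pc, ∀ m, m ≤ n → m ∈ Pc) (hcof : ∀ n ∈ Pc, ∃ m ∈ P0, n ≤ m)
    (hinf : Px ∩ Pc ⊆ P0) (hsup : ∀ U : Set M, Closed U → Px ⊆ U → Pu ⊆ U → W ⊆ U) :
    W ∩ Pc ⊆ Pu := by
  rintro b ⟨hW, hb⟩
  -- `b` is definable from two elements
  have hsys : DSys (DU {X : Set M | ∃ a ∈ Px, ∃ k ∈ Pu, X = {a, k}}) := by
    refine DU_sys ⟨{0, 0}, 0, hx.zero, 0, hu.zero, rfl⟩ ?_
    rintro X ⟨a, ha, k, hk, rfl⟩ Y ⟨a', ha', k', hk', rfl⟩
    refine ⟨{pr a a', pr k k'}, ⟨_, hx.pr ha ha', _, hu.pr hk hk', rfl⟩, ?_, ?_⟩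
    · rintro x (rfl | hx)
      · exact DX_fst (b := a') (Or.inl rfl)
      · rw [Set.mem_singleton_iff.mp hx]
        exact DX_fst (b := k') (Or.inr rfl)
    · rintro x (rfl | hx)
      · exact DX_snd (a := a) (Or.inl rfl)
      · rw [Set.mem_singleton_iff.mp hx]
        exact DX_snd (a := k) (Or.inr rfl)
  have h1 : b ∈ {y : M | DU {X : Set M | ∃ a ∈ Px, ∃ k ∈ Pu, X = {a, k}} (fun v => v 0 = y)} :=
    hsup _ (closed_of_sys hsys) (fun a ha => ⟨{a, 0}, ⟨a, ha, 0, hu.zero, rfl⟩,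
      DX_param (Or.inl rfl)⟩) (fun k hk => ⟨{0, k}, ⟨0, hx.zero, k, hk, rfl⟩,
      DX_param (Or.inr rfl)⟩) hW
  obtain ⟨X, ⟨a, ha, k, hk, rfl⟩, h2⟩ := h1
  obtain ⟨S, hS, h3⟩ := DX_double h2
  let Q : M → M → M → Prop := fun a' i y => S (cns a' (cns i (fun _ => y)))
  have hQ : DX ∅ (fun v => Q (v 0) (v 1) (v 2)) := by
    refine (DX_sys _).congr ((DX_sys _).ren
      (fun n => match n with | 0 => 0 | 1 => 1 | _ + 2 => 2) hS)
      (fun v => iff_of_eq (congrArg S ?_))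
    funext n
    rcases n with _ | _ | n <;> rfl
  have hQk : ∀ y, Q a k y ↔ y = b := fun y => h3 (fun _ => y)
  -- a bound in `P0`
  obtain ⟨m1, hm1, hkm⟩ := hcof k (huc hk)
  obtain ⟨m2, hm2, hbm⟩ := hcof b hb
  obtain ⟨d, hd, hkd, hbd⟩ : ∃ d ∈ P0, k < d ∧ b < d := by
    refine ⟨m1 + m2 + 1, h0.add (h0.add hm1 hm2) h0.one, ?_, ?_⟩
    · exact lt_succ_iff.mpr (hkm.trans le_self_add)
    · exact lt_succ_iff.mpr (hbm.trans le_add_self)
  -- the code
  let T : M → Prop := fun z => ∃ i, i < d ∧ ∃ y, y < d ∧ z = pr i y ∧ Q a i y ∧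
    ∀ y', y' < d → Q a i y' → y' = y
  have H := DX_sys Px
  have hdx : DF (DX Px) (fun _ => d) := DX_param (h0x hd)
  have HQ : ∀ {f g : (ℕ → M) → M}, DF (DX Px) f → DF (DX Px) g →
      DX Px (fun v => Q a (f v) (g v)) :=
    fun hf hg => H.sub3 (DX_of_empty hQ) (DX_param ha) hf hg
  have hT : DX Px (fun v => T (v 0)) := by
    apply H.ex (S := fun v i => i < d ∧ ∃ y, y < d ∧ v 0 = pr i y ∧ Q a i y ∧
      ∀ y', y' < d → Q a i y' → y' = y)
    apply H.and (H.lt (H.var 0) hdx)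
    apply H.ex (S := fun v y => y < d ∧ v 1 = pr (v 0) y ∧ Q a (v 0) y ∧
      ∀ y', y' < d → Q a (v 0) y' → y' = y)
    apply H.and (H.lt (H.var 0) hdx)
    apply H.and (H.eq (H.var 2) (H.pr (H.var 1) (H.var 0)))
    apply H.and (HQ (H.var 1) (H.var 0))
    apply H.all (S := fun v y' => y' < d → Q a (v 1) y' → y' = v 0)
    exact H.imp (H.lt (H.var 0) hdx) (H.imp (HQ (H.var 2) (H.var 0)) (H.eq (H.var 0) (H.var 1)))
  have hTb : ∀ z, T z → z < pr d d + 1 := by
    rintro z ⟨i, hi, y, hy, rfl, _⟩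
    exact lt_succ_iff.mpr (pr_mono hi.le hy.le)
  obtain ⟨g, hg, hgm⟩ := comprehension (Def_of_DX hT) (pr d d + 1)
  have hgm' : ∀ z, Mem z g ↔ T z := fun z => by
    rw [hgm]
    exact ⟨fun h => h.2, fun h => ⟨hTb z h, h⟩⟩
  have hgx : g ∈ Px := by
    refine hx g (H.congr (H.all (S := fun v z => Mem z (v 0) ↔ T z)
      (H.iff (H.mem (H.var 0) (H.var 1)) (H.sub1 hT (H.var 0)))) (fun v => ?_))
    constructor
    · intro h
      exact mem_ext (fun z => by rw [h, hgm'])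
    · intro h z
      rw [h, hgm']
  have hgc : g ∈ Pc :=
    hinit _ (huc (h0u (h0.pow2 (h0.add (h0.pr hd hd) h0.one)))) g hg.le
  have hg0 : g ∈ P0 := hinf ⟨hgx, hgc⟩
  refine hu b ((DX_sys Pu).congr ((DX_sys Pu).mem ((DX_sys Pu).pr (DX_param hk) ((DX_sys Pu).var 0))
    (DX_param (h0u hg0))) (fun v => ?_))
  rw [hgm']
  constructor
  · rintro ⟨i, _, y, _, h4, h5, _⟩
    obtain ⟨h6, h7⟩ := pair_inj h4
    rw [← h6, ← h7, hQk] at h5
    exact h5
  · intro h
    rw [h]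
    exact ⟨k, hkd, b, hbd, rfl, (hQk b).mpr rfl, fun y' _ h => (hQk y').mp h⟩

end

/-- The lattice of intermediate models satisfies the modular law at end-extended models. -/
theorem lattice_law {L : Type w} [Lattice L] {N : Type u} [PAModel N] [Neg N] [CompatibleRing N]
    (hneg : ∀ x : N, -x = x) (R : Set N) (C : Set L)
    (e : L ≃o {K : Language.ring.ElementarySubstructure N // R ⊆ (K : Set N)})
    (he : ∀ l : L, l ∈ C ↔
      ∀ x ∈ (e l).1, ∀ y : N, y ∉ (e l).1 → ∃ z : N, x + z + 1 = y)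
    (c x u : L) (hc : c ∈ C) (hbar : ∀ c' ∈ C, x ⊓ c ≤ c' → c ≤ c') (huc : u ≤ c) :
    (x ⊔ u) ⊓ c = (x ⊓ c) ⊔ u := by
  -- it suffices to treat `u` above `x ⊓ c`
  suffices key : ∀ u : L, x ⊓ c ≤ u → u ≤ c → (x ⊔ u) ⊓ c ≤ u by
    apply le_antisymm
    · refine le_trans ?_ (key ((x ⊓ c) ⊔ u) le_sup_left (sup_le inf_le_right huc))
      exact inf_le_inf_right _ (sup_le_sup_left le_sup_right _)
    · exact sup_le (le_inf (inf_le_left.trans le_sup_left) inf_le_right)
        (le_inf le_sup_right huc)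
  intro u hxu huc
  let P : L → Set N := fun l => ((e l).1 : Set N)
  have hcl : ∀ l, Closed (P l) := fun l => closed_of_elem _
  have hR : ∀ l, R ⊆ P l := fun l => (e l).2
  have hle : ∀ l l', l ≤ l' ↔ P l ⊆ P l' := fun l l' => (e.le_iff_le (x := l) (y := l')).symm
  have hsurj : ∀ Q : Set N, Closed Q → R ⊆ Q → ∃ l, P l = Q := by
    intro Q hQ hRQ
    obtain ⟨K, hK⟩ := exists_elem hneg hQ
    obtain ⟨l, hl⟩ := e.surjective ⟨K, by rw [hK]; exact hRQ⟩
    refine ⟨l, ?_⟩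
    show ((e l).1 : Set N) = Q
    rw [hl]
    exact hK
  -- initial segments
  have hinit : ∀ l ∈ C, ∀ n ∈ P l, ∀ m, m ≤ n → m ∈ P l := by
    intro l hl n hn m hmn
    by_contra hm
    obtain ⟨z, hz⟩ := (he l).mp hl n hn m hm
    have h1 : n < m := by
      rw [lt_iff_exists]
      exact ⟨z, by rw [← add_assoc]; exact hz⟩
    exact absurd hmn (not_le.mpr h1)
  have hCiff : ∀ l, (∀ n ∈ P l, ∀ m, m ≤ n → m ∈ P l) → l ∈ C := by
    intro l h
    refine (he l).mpr (fun n hn m hm => ?_)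
    have h1 : n < m := by
      by_contra h2
      exact hm (h n hn m (not_lt.mp h2))
    obtain ⟨z, hz⟩ := (lt_iff_exists n m).mp h1
    exact ⟨z, by rw [add_assoc]; exact hz⟩
  -- the supremum of the model of `x ⊓ c`
  obtain ⟨l, hl⟩ := hsurj {n : N | ∃ m ∈ P (x ⊓ c), n ≤ m} (hcl (x ⊓ c)).sup
    (fun n hn => ⟨n, hR _ hn, le_rfl⟩)
  have hlC : l ∈ C := by
    apply hCiff
    rw [hl]
    rintro n ⟨m, hm, hnm⟩ k hk
    exact ⟨m, hm, hk.trans hnm⟩
  have hcl' : P c ⊆ P l := by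
    rw [← hle]
    refine hbar l hlC ?_
    rw [hle, hl]
    exact fun n hn => ⟨n, hn, le_rfl⟩
  have hlaw : P (x ⊔ u) ∩ P c ⊆ P u := by
    refine law (P0 := P (x ⊓ c)) (Px := P x) (hcl _) (hcl _) (hcl _)
      ((hle _ _).mp hxu) ((hle _ _).mp inf_le_left) ((hle _ _).mp huc)
      (hinit _ hc) (fun n hn => ?_) ?_ ?_
    · have := hcl' hn
      rw [hl] at this
      exact this
    · obtain ⟨k, hk⟩ := hsurj (P x ∩ P c) ((hcl _).inter (hcl _))
        (Set.subset_inter (hR _) (hR _))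
      rw [← hk, ← hle]
      have h1 : k ≤ x := (hle _ _).mpr (hk ▸ Set.inter_subset_left)
      have h2 : k ≤ c := (hle _ _).mpr (hk ▸ Set.inter_subset_right)
      exact le_inf h1 h2
    · intro U hU hx hu
      obtain ⟨k, hk⟩ := hsurj U hU ((hR _).trans hx)
      have h1 : x ≤ k := (hle _ _).mpr (hk ▸ hx)
      have h2 : u ≤ k := (hle _ _).mpr (hk ▸ hu)
      rw [← hk]
      exact (hle _ _).mp (sup_le h1 h2)
  rw [hle]
  intro n hn
  exact hlaw ⟨(hle _ _).mp inf_le_left hn, (hle _ _).mp inf_le_right hn⟩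

/-- Peano arithmetic from the algebraic hypotheses. -/
theorem model_of_ring {M : Type u} [CommSemiring M] [Neg M] [CompatibleRing M]
    (h1 : ∀ x : M, x + 1 ≠ 0) (h2 : ∀ x y : M, x + 1 = y + 1 → x = y)
    (h3 : ∀ s : Set (Fin 1 → M), (Set.univ : Set M).Definable Language.ring s →
        (fun _ : Fin 1 => (0 : M)) ∈ s →
        (∀ x : M, (fun _ : Fin 1 => x) ∈ s → (fun _ : Fin 1 => x + 1) ∈ s) →
        ∀ x : M, (fun _ : Fin 1 => x) ∈ s) : M ⊨ PA := by
  rw [Theory.model_iff]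
  intro φ hφ
  cases hφ with
  | succ_ne =>
    intro x
    exact h1 x
  | succ_inj =>
    intro x y
    exact h2 x y
  | add_zero =>
    intro x
    exact add_zero x
  | add_succ =>
    intro x y
    exact (add_assoc x y 1).symm
  | mul_zero =>
    intro x
    exact mul_zero x
  | mul_succ =>
    intro x y
    exact (mul_add x y 1).trans (congrArg (x * y + ·) (mul_one x))
  | @induction n φ =>
    rw [realize_inductionAxiom]
    intro y h0 hs x
    let ψ : Language.ring.Formula ((Set.univ : Set M) ⊕ Fin 1) :=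
      Formula.relabel (id : _ → _) ((toRing φ).subst (Sum.elim
        (fun i => Term.var (Sum.inl ⟨y i, Set.mem_univ _⟩)) (fun i => Term.var (Sum.inr i))))
    have hψ : ∀ v : Fin 1 → M, ψ.Realize (Sum.elim (fun x : (Set.univ : Set M) => (x : M)) v) ↔
        φ.Realize (Sum.elim y v) := by
      intro v
      rw [Formula.realize_relabel]
      unfold Formula.Realize
      rw [BoundedFormula.realize_subst, realize_toRing]
      have e : (fun a => Term.realize (Sum.elim (fun x : (Set.univ : Set M) => (x : M)) v ∘ id)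
          ((Sum.elim (fun i => Term.var (Sum.inl ⟨y i, Set.mem_univ _⟩))
            (fun i => Term.var (Sum.inr i)) :
            Fin n ⊕ Fin 1 → Language.ring.Term ((Set.univ : Set M) ⊕ Fin 1)) a)) =
          Sum.elim y v := by
        funext s
        rcases s with s | s <;> rfl
      rw [e]
    have h4 := h3 {v | φ.Realize (Sum.elim y v)}
      (Set.definable_iff_exists_formula_sum.mpr ⟨ψ, Set.ext (fun v => (hψ v).symm)⟩) h0
      (fun x hx => by
        have := hs x hx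
        have e : (rs x : M) = x + 1 := rfl
        rw [e] at this
        exact this) x
    exact h4

end Run7.h465.RL
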