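import Pool.Agent.Run7.h465.RL.Conv

/-!
A countable nonstandard model of Peano arithmetic.
-/

set_option autoImplicit false

universe u w

namespace Run7.h465.RL

open FirstOrder FirstOrder.Language Pool.Agent.Helper687.Arith Filter

/-- numerals -/
def num {α : Type w} : ℕ → LA.Term α
  | 0 => O
  | n + 1 => Sc (num n)

theorem realize_num {M : Type u} [CommSemiring M] {α : Type w} (v : α → M) (n : ℕ) :
    (num n : LA.Term α).realize v = (n : M) := by
  induction n with
  | zero => exact Nat.cast_zero.symm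
  | succ n ih =>
    rw [Nat.cast_succ, ← ih]
    rfl

/-- the ultrapower of the natural numbers -/
abbrev Up : Type := (↑(hyperfilter ℕ) : Filter ℕ).Product (fun _ : ℕ => ℕ)

/-- classes -/
noncomputable def cl (x : ℕ → ℕ) : Up := (x : (↑(hyperfilter ℕ) : Filter ℕ).Product (fun _ : ℕ => ℕ))

theorem cl_eq {x y : ℕ → ℕ} : cl x = cl y ↔ ∀ᶠ a in (hyperfilter ℕ : Filter ℕ), x a = y a :=
  Quotient.eq''

theorem up_PA : Up ⊨ PA := by
  have h := nat_models_PA
  rw [Theory.model_iff] at h ⊢
  intro φ hφ
  rw [Ultraproduct.sentence_realize]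
  exact Eventually.of_forall (fun _ => h φ hφ)

instance : Infinite Up := by
  refine Infinite.of_injective (fun n : ℕ => cl (fun _ => n)) (fun m n h => ?_)
  obtain ⟨a, ha⟩ := (cl_eq.mp h).exists
  exact ha

theorem countable_LA : Countable LA.Symbols := by
  have h1 : Countable (Σ l, LA.Functions l) := by
    have hs : Function.Surjective (fun i : Fin 4 => (match i with
      | 0 => ⟨0, ArithFunc.zero⟩
      | 1 => ⟨1, ArithFunc.succ⟩
      | 2 => ⟨2, ArithFunc.add⟩
      | 3 => ⟨2, ArithFunc.mul⟩ : Σ l, LA.Functions l)) := by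
      rintro ⟨l, f⟩
      cases f
      · exact ⟨0, rfl⟩
      · exact ⟨1, rfl⟩
      · exact ⟨2, rfl⟩
      · exact ⟨3, rfl⟩
    exact hs.countable
  have h2 : IsEmpty (Σ l, LA.Relations l) := ⟨fun x => (x.2 : Empty).elim⟩
  have h3 : Countable ((Σ l, LA.Functions l) ⊕ (Σ l, LA.Relations l)) := inferInstance
  exact h3

theorem exists_nonstandard : ∃ (M : Type) (_ : PAModel M), Countable M ∧ M ⊨ PA ∧
    ∃ c : M, ∀ n : ℕ, (n : M) ≠ c := by
  have hc := countable_LA
  obtain ⟨S, hS, hcard⟩ := exists_elementarySubstructure_card_eq LA ({cl id} : Set Up)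
    Cardinal.aleph0.{0} le_rfl (by simp) (by
      have : LA.card ≤ Cardinal.aleph0 := Cardinal.mk_le_aleph0
      simpa using this) (by
      have : Cardinal.aleph0 ≤ Cardinal.mk Up := Cardinal.aleph0_le_mk Up
      simp [this])
  have hcount : Countable S := by
    rw [← Cardinal.mk_le_aleph0_iff]
    simpa using hcard.le
  have hPA : S ⊨ PA := by
    have h := up_PA
    rw [Theory.model_iff] at h ⊢
    intro φ hφ
    exact (S.subtype.map_sentence φ).mpr (h φ hφ)
  have hmem : cl id ∈ S := hS rfl
  have key : ∀ n : ℕ, ¬ ((num n).equal (Term.var 0) : LA.Formula (Fin 1)).Realize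
      (fun _ => (⟨cl id, hmem⟩ : S)) := by
    intro n h1
    have h2 := (S.subtype.map_formula _ (fun _ => (⟨cl id, hmem⟩ : S))).mpr h1
    have h3 : ((num n).equal (Term.var 0) : LA.Formula (Fin 1)).Realize
      (fun _ : Fin 1 => (cl id : Up)) := h2
    have h4 := (Ultraproduct.realize_formula_cast (u := hyperfilter ℕ) (M := fun _ : ℕ => ℕ) _
      (fun _ : Fin 1 => (id : ℕ → ℕ))).mp h3
    have h5 : ∀ᶠ a in (hyperfilter ℕ : Filter ℕ), a = n := by
      filter_upwards [h4] with a ha
      rw [Formula.realize_equal] at ha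
      exact ((realize_num _ n).symm.trans ha).symm
    have h6 : ({n} : Set ℕ) ∈ (hyperfilter ℕ : Filter ℕ) := h5
    exact (Set.Finite.notMem_hyperfilter (Set.finite_singleton n)) h6
  obtain ⟨i, hi⟩ := exists_PAModel S
  refine ⟨S, i, hcount, ?_, ⟨cl id, hmem⟩, fun n hn => ?_⟩
  · have : @Theory.Model LA S (@standard S i.toCommSemiring) PA := by
      rw [hi]
      exact hPA
    exact this
  · have h := key n
    rw [← hi] at h
    apply h
    rw [Formula.realize_equal]
    exact (realize_num _ n).trans hn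

end Run7.h465.RL
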