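import Pool.Agent.Run7.h465.RL.DS

/-!
Sets closed under definability in models of arithmetic: the supremum of a closed set, coding of
bounded parts of definable relations.
-/

set_option autoImplicit false

universe u w

namespace Run7.h465.RL

open FirstOrder FirstOrder.Language Pool.Agent.Helper687.Arith

section

variable {M : Type u} [PAModel M]

namespace DSys

variable {D : ((ℕ → M) → Prop) → Prop} (H : DSys D)

include H

theorem zero : DF D (fun _ => (0 : M)) := H.app (ArithFunc.zero : LA.Functions 0) (fun i => i.elim0)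
  (fun i => i.elim0)

theorem succ {f : (ℕ → M) → M} (hf : DF D f) : DF D (fun v => f v + 1) :=
  H.app (ArithFunc.succ : LA.Functions 1) ![f] (fun i => by fin_cases i; exact hf)

theorem one : DF D (fun _ => (1 : M)) := by
  have := H.succ H.zero
  simpa using this

theorem add {f g : (ℕ → M) → M} (hf : DF D f) (hg : DF D g) : DF D (fun v => f v + g v) :=
  H.app (ArithFunc.add : LA.Functions 2) ![f, g] (fun i => by
    fin_cases i
    · exact hf
    · exact hg)

theorem mul {f g : (ℕ → M) → M} (hf : DF D f) (hg : DF D g) : DF D (fun v => f v * g v) :=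
  H.app (ArithFunc.mul : LA.Functions 2) ![f, g] (fun i => by
    fin_cases i
    · exact hf
    · exact hg)

theorem lt {f g : (ℕ → M) → M} (hf : DF D f) (hg : DF D g) : D (fun v => f v < g v) := by
  have h : D (fun v => v 0 < v 1) := by
    refine H.congr (R := fun v => ∃ z, v 0 + (z + 1) = v 1) ?_
      (fun v => (lt_iff_exists _ _).symm)
    apply H.ex
    exact H.eq (H.add (H.var 1) (H.succ (H.var 0))) (H.var 2)
  exact H.sub2 h hf hg

theorem le {f g : (ℕ → M) → M} (hf : DF D f) (hg : DF D g) : D (fun v => f v ≤ g v) :=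
  H.congr (H.not (H.lt hg hf)) (fun v => not_lt)

theorem pow2 {f : (ℕ → M) → M} (hf : DF D f) :
    DF D (fun v => Pool.Agent.Helper687.Arith.pow2 (f v)) := by
  have h1 : D (fun v : ℕ → M => v 0 = Pool.Agent.Helper687.Arith.pow2 (v 1)) := by
    have h2 := H.formula (powF (Term.var (Sum.inr 1)) (Term.var (Sum.inr 0)) :
      LA.BoundedFormula Empty 2) (fun i => i.elim) (fun j v => v j) (fun i => i.elim)
      (fun j => H.var j)
    refine H.congr h2 (fun v => ?_)
    rw [realize_powF]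
    exact eq_comm
  exact H.sub2 (R := fun a b => a = Pool.Agent.Helper687.Arith.pow2 b) h1 (H.var 0) (H.fren (fun n => n + 1) hf)

theorem mem {f g : (ℕ → M) → M} (hf : DF D f) (hg : DF D g) : D (fun v => Mem (f v) (g v)) := by
  have h1 : D (fun v : ℕ → M => Mem (v 0) (v 1)) := by
    have h2 := H.formula (memF (Term.var (Sum.inr 0)) (Term.var (Sum.inr 1)) :
      LA.BoundedFormula Empty 2) (fun i => i.elim) (fun j v => v j) (fun i => i.elim)
      (fun j => H.var j)
    refine H.congr h2 (fun v => ?_)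
    rw [realize_memF]
    exact Iff.rfl
  exact H.sub2 (R := fun a b => Mem a b) h1 hf hg

theorem uniq {Q : (ℕ → M) → M → Prop} (h : D (fun v => Q (fun n => v (n + 1)) (v 0)))
    {f : (ℕ → M) → M} (hf : ∀ v y, Q v y ↔ y = f v) : DF D f :=
  H.congr h (fun _ => hf _ _)

/-- least element -/
theorem least {Q : (ℕ → M) → M → Prop} (h : D (fun v => Q (fun n => v (n + 1)) (v 0))) :
    D (fun v => Q (fun n => v (n + 1)) (v 0) ∧ ∀ y < v 0, ¬ Q (fun n => v (n + 1)) y) := by
  refine H.and h ?_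
  apply H.all (S := fun v y => y < v 0 → ¬ Q (fun n => v (n + 1)) y)
  apply H.imp (H.lt (H.var 0) (H.var 1))
  apply H.not
  exact H.ren (fun n => match n with | 0 => 0 | n + 1 => n + 2) h

end DSys

/-- pairing -/
def pr (a b : M) : M := (a + b) * (a + b) + a

theorem DSys.pr {D : ((ℕ → M) → Prop) → Prop} (H : DSys D) {f g : (ℕ → M) → M} (hf : DF D f)
    (hg : DF D g) : DF D (fun v => RL.pr (f v) (g v)) :=
  H.add (H.mul (H.add hf hg) (H.add hf hg)) hf

theorem Def_sys : DSys (Def (M := M)) where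
  congr := Def.congr
  bot := Def.bot
  imp := Def.imp
  all := Def.all
  ren := fun ρ => Def.ren ρ
  eq0 := Def.var_eq
  fn := by
    intro k f
    refine ⟨(Term.var (Sum.inr 0)).equal
      (Term.func f (fun i : Fin k => Term.var (Sum.inr ((i : ℕ) + 1)))), fun v => ?_⟩
    rw [Formula.realize_equal]
    exact Iff.rfl

theorem Def_of_DX {X : Set M} {R : (ℕ → M) → Prop} (h : DX X R) : Def R :=
  DX_trans Def_sys (fun x _ => DefF.const x) h

/-! ### closed sets -/

theorem Closed.zero {P : Set M} (hP : Closed P) : (0 : M) ∈ P := hP _ (DX_sys P).zero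

theorem Closed.one {P : Set M} (hP : Closed P) : (1 : M) ∈ P := hP _ (DX_sys P).one

/-- `y` is in the closed set `P` when its constant function is definable over `P` -/
theorem Closed.mem {P : Set M} (hP : Closed P) {y : M} (h : DF (DX P) (fun _ => y)) : y ∈ P := hP y h

theorem Closed.add {P : Set M} (hP : Closed P) {x y : M} (hx : x ∈ P) (hy : y ∈ P) : x + y ∈ P :=
  hP.mem ((DX_sys P).add (DX_param hx) (DX_param hy))

theorem Closed.pr {P : Set M} (hP : Closed P) {x y : M} (hx : x ∈ P) (hy : y ∈ P) :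
    RL.pr x y ∈ P :=
  hP.mem ((DX_sys P).pr (DX_param hx) (DX_param hy))

theorem Closed.pow2 {P : Set M} (hP : Closed P) {x : M} (hx : x ∈ P) :
    Pool.Agent.Helper687.Arith.pow2 x ∈ P :=
  hP.mem ((DX_sys P).pow2 (DX_param hx))

/-- The least element of a nonempty class definable over a closed set belongs to the set. -/
theorem Closed.least {P : Set M} (hP : Closed P) {Q : M → Prop} (hQ : DX P (fun v => Q (v 0)))
    (hex : ∃ x, Q x) : ∃ x ∈ P, Q x ∧ ∀ y < x, ¬ Q y := by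
  obtain ⟨x, hx, hmin⟩ := Pool.Agent.Helper687.Arith.least (Def_of_DX hQ) hex
  refine ⟨x, hP x ?_, hx, hmin⟩
  refine (DX_sys P).congr ((DX_sys P).least (Q := fun _ y => Q y) hQ) (fun v => ?_)
  constructor
  · rintro ⟨h1, h2⟩
    rcases lt_trichotomy (v 0) x with h | h | h
    · exact absurd h1 (hmin _ h)
    · exact h
    · exact absurd hx (h2 _ h)
  · intro h
    rw [h]
    exact ⟨hx, hmin⟩

/-- components of a pair are definable from it -/
theorem DX_fst {X : Set M} {a b : M} (h : pr a b ∈ X) : DF (DX X) (fun _ => a) := by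
  refine (DX_sys X).congr ((DX_sys X).ex (S := fun v y => pr a b = pr (v 0) y)
    ((DX_sys X).eq (DX_param h) ((DX_sys X).pr ((DX_sys X).var 1) ((DX_sys X).var 0)))) (fun v => ?_)
  constructor
  · rintro ⟨y, hy⟩
    exact (pair_inj hy).1.symm
  · intro h
    exact ⟨b, by rw [h]⟩

theorem DX_snd {X : Set M} {a b : M} (h : pr a b ∈ X) : DF (DX X) (fun _ => b) := by
  refine (DX_sys X).congr ((DX_sys X).ex (S := fun v y => pr a b = pr y (v 0))
    ((DX_sys X).eq (DX_param h) ((DX_sys X).pr ((DX_sys X).var 0) ((DX_sys X).var 1)))) (fun v => ?_)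
  constructor
  · rintro ⟨y, hy⟩
    exact (pair_inj hy).2.symm
  · intro h
    exact ⟨a, by rw [h]⟩

theorem pr_mono {a b c d : M} (h1 : a ≤ c) (h2 : b ≤ d) : pr a b ≤ pr c d :=
  add_le_add (mul_le_mul' (add_le_add h1 h2) (add_le_add h1 h2)) h1

/-- One parameter is a variable: predicates definable from `c`. -/
theorem DX_single {c : M} {R : (ℕ → M) → Prop} (h : DX {c} R) :
    ∃ S : (ℕ → M) → Prop, DX ∅ S ∧ ∀ v, S (cns c v) ↔ R v := by
  obtain ⟨φ, hφ⟩ := h
  refine ⟨fun v => φ.Realize (Sum.elim (fun _ => v 0) (fun n => v (n + 1))), ?_, fun v => ?_⟩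
  · refine ⟨φ.relabel (fun s => match s with | .inl _ => .inr 0 | .inr n => .inr (n + 1)),
      fun v => ?_⟩
    rw [Formula.realize_relabel]
    have : Sum.elim (fun x : (∅ : Set M) => (x : M)) v ∘
        (fun s : ({c} : Set M) ⊕ ℕ => match s with | .inl _ => .inr 0 | .inr n => .inr (n + 1)) =
        Sum.elim (fun _ => v 0) (fun n => v (n + 1)) := by
      funext s; rcases s with p' | n <;> rfl
    rw [this]
  · rw [← hφ v]
    have : (Sum.elim (fun _ => (cns c v) 0) (fun n => (cns c v) (n + 1)) :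
        ({c} : Set M) ⊕ ℕ → M) = Sum.elim (fun x : ({c} : Set M) => (x : M)) v := by
      funext s
      rcases s with p' | n
      · exact (Set.mem_singleton_iff.mp p'.2).symm
      · rfl
    show φ.Realize (Sum.elim (fun _ => (cns c v) 0) (fun n => (cns c v) (n + 1))) ↔ _
    rw [this]

/-- Two parameters as variables. -/
theorem DX_double {a b : M} {R : (ℕ → M) → Prop} (h : DX {a, b} R) :
    ∃ S : (ℕ → M) → Prop, DX ∅ S ∧ ∀ v, S (cns a (cns b v)) ↔ R v := by
  have h1 : DX {pr a b} R := by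
    refine DX_trans (DX_sys _) (fun x hx => ?_) h
    rcases hx with hx | hx
    · rw [hx]
      exact DX_fst (b := b) rfl
    · rw [Set.mem_singleton_iff.mp hx]
      exact DX_snd (a := a) rfl
  obtain ⟨S, hS, h2⟩ := DX_single h1
  refine ⟨fun v => S (cns (pr (v 0) (v 1)) (fun n => v (n + 2))), ?_, fun v => (h2 v)⟩
  have H := DX_sys (∅ : Set M)
  refine H.congr (H.ex (S := fun v y => y = pr (v 0) (v 1) ∧ S (cns y (fun n => v (n + 2))))
    (H.and (H.eq (H.var 0) (H.pr (H.var 1) (H.var 2)))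
      (H.congr (H.ren (fun n => match n with | 0 => 0 | n + 1 => n + 3) hS) (fun v => ?_))))
    (fun v => ?_)
  · refine iff_of_eq (congrArg S ?_)
    funext n
    cases n <;> rfl
  · constructor
    · rintro ⟨y, rfl, h⟩
      exact h
    · intro h
      exact ⟨_, rfl, h⟩

theorem DX_of_empty {X : Set M} {R : (ℕ → M) → Prop} (h : DX ∅ R) : DX X R :=
  DX_mono (Set.empty_subset X) h

/-- The set of elements below some element of a closed set is closed. -/
theorem Closed.sup {P : Set M} (hP : Closed P) : Closed {n : M | ∃ m ∈ P, n ≤ m} := by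
  set V : Set M := {n : M | ∃ m ∈ P, n ≤ m} with hV
  intro y hy
  -- one parameter
  have hsys : DSys (DU {X : Set M | ∃ c ∈ V, X = {c}}) := by
    refine DU_sys ⟨{0}, 0, ⟨0, hP.zero, le_rfl⟩, rfl⟩ ?_
    rintro X ⟨c, ⟨m, hm, hc⟩, rfl⟩ Y ⟨c', ⟨m', hm', hc'⟩, rfl⟩
    refine ⟨{RL.pr c c'}, ⟨_, ⟨_, hP.pr hm hm', pr_mono hc hc'⟩, rfl⟩, ?_, ?_⟩
    · intro x hx
      rw [Set.mem_singleton_iff.mp hx]
      exact DX_fst (b := c') rfl
    · intro x hx
      rw [Set.mem_singleton_iff.mp hx]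
      exact DX_snd (a := c) rfl
  have h1 : DU {X : Set M | ∃ c ∈ V, X = {c}} (fun v => v 0 = y) :=
    DX_trans hsys (fun x hx => ⟨{x}, ⟨x, hx, rfl⟩, DX_param rfl⟩) hy
  obtain ⟨X, ⟨c, ⟨m, hm, hc⟩, rfl⟩, h2⟩ := h1
  obtain ⟨S, hS, h3⟩ := DX_single h2
  -- the relation `Q c' y'`
  let Q : M → M → Prop := fun c' y' => S (cns c' (fun _ => y'))
  have hQ : DX ∅ (fun v => Q (v 0) (v 1)) := by
    refine (DX_sys _).congr ((DX_sys _).ren (fun n => match n with | 0 => 0 | _ + 1 => 1) hS)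
      (fun v => iff_of_eq (congrArg S ?_))
    funext n
    cases n <;> rfl
  have hQc : ∀ y', Q c y' ↔ y' = y := fun y' => h3 (fun _ => y')
  have H := DX_sys P
  have HQ : ∀ {f g : (ℕ → M) → M}, DF (DX P) f → DF (DX P) g → DX P (fun v => Q (f v) (g v)) :=
    fun hf hg => H.sub2 (DX_of_empty hQ) hf hg
  -- bounds
  let B : M → Prop := fun z => ∀ c', c' ≤ m → ∀ y', (Q c' y' ∧ ∀ y'', Q c' y'' → y'' = y') → y' < z
  have hB : DX P (fun v => B (v 0)) := by
    apply H.all (S := fun v c' => c' ≤ m → ∀ y', (Q c' y' ∧ ∀ y'', Q c' y'' → y'' = y') → y' < v 0)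
    apply H.imp (H.le (H.var 0) (DX_param hm))
    apply H.all (S := fun v y' => (Q (v 0) y' ∧ ∀ y'', Q (v 0) y'' → y'' = y') → y' < v 1)
    apply H.imp
    · apply H.and (HQ (H.var 1) (H.var 0))
      apply H.all (S := fun v y'' => Q (v 1) y'' → y'' = v 0)
      exact H.imp (HQ (H.var 2) (H.var 0)) (H.eq (H.var 0) (H.var 1))
    · exact H.lt (H.var 0) (H.var 2)
  have hex : ∃ z, B z := by
    let f : M → M := fun c' => the (fun y' => Q c' y')
    have hf : DefF (fun v => f (v 0)) :=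
      DefF.the (Q := fun v y' => Q (v 0) y')
        (Def.sub2 (Def_of_DX hQ) (DefF.var 1) (DefF.var 0))
    obtain ⟨z, hz⟩ := exists_bound hf (m + 1)
    refine ⟨z, fun c' hc' y' hy' => ?_⟩
    have h4 := hz c' (lt_succ_iff.mpr hc')
    have h5 : f c' = y' := the_eq hy'.1 hy'.2
    rwa [h5] at h4
  obtain ⟨z, hzP, hz, _⟩ := hP.least hB hex
  refine ⟨z, hzP, (hz c hc y ⟨(hQc y).mpr rfl, fun y'' h => (hQc y'').mp h⟩).le⟩

/-- The configuration of the pentagon is impossible. -/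
theorem core {P0 Pu Pc Px : Set M} (h0 : Closed P0) (hu : Closed Pu) (hx : Closed Px)
    (h0u : P0 ⊆ Pu) (h0x : P0 ⊆ Px) (huc : Pu ⊆ Pc)
    (hinit : ∀ n ∈ Pc, ∀ m, m ≤ n → m ∈ Pc) (hcof : ∀ n ∈ Pc, ∃ m ∈ P0, n ≤ m)
    (hinf : Px ∩ Pc ⊆ P0) (hsup : ∀ U : Set M, Closed U → Px ⊆ U → Pu ⊆ U → U = Set.univ) :
    Pc ⊆ Pu := by
  intro b hb
  -- `b` is definable from two elements
  have hsys : DSys (DU {X : Set M | ∃ a ∈ Px, ∃ k ∈ Pu, X = {a, k}}) := by
    refine DU_sys ⟨{0, 0}, 0, hx.zero, 0, hu.zero, rfl⟩ ?_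
    rintro X ⟨a, ha, k, hk, rfl⟩ Y ⟨a', ha', k', hk', rfl⟩
    refine ⟨{pr a a', pr k k'}, ⟨_, hx.pr ha ha', _, hu.pr hk hk', rfl⟩, ?_, ?_⟩
    · rintro x (rfl | hx)
      · exact DX_fst (b := a') (Or.inl rfl)
      · rw [Set.mem_singleton_iff.mp hx]
        exact DX_fst (b := k') (Or.inr rfl)
    · rintro x (rfl | hx)
      · exact DX_snd (a := a) (Or.inl rfl)
      · rw [Set.mem_singleton_iff.mp hx]
        exact DX_snd (a := k) (Or.inr rfl)
  have h1 : b ∈ {y : M | DU {X : Set M | ∃ a ∈ Px, ∃ k ∈ Pu, X = {a, k}} (fun v => v 0 = y)} := by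
    rw [hsup _ (closed_of_sys hsys) (fun a ha => ⟨{a, 0}, ⟨a, ha, 0, hu.zero, rfl⟩,
      DX_param (Or.inl rfl)⟩) (fun k hk => ⟨{0, k}, ⟨0, hx.zero, k, hk, rfl⟩,
      DX_param (Or.inr rfl)⟩)]
    exact Set.mem_univ _
  obtain ⟨X, ⟨a, ha, k, hk, rfl⟩, h2⟩ := h1
  obtain ⟨S, hS, h3⟩ := DX_double h2
  let Q : M → M → M → Prop := fun a' i y => S (cns a' (cns i (fun _ => y)))
  have hQ : DX ∅ (fun v => Q (v 0) (v 1) (v 2)) := by
    refine (DX_sys _).congr ((DX_sys _).ren
      (fun n => match n with | 0 => 0 | 1 => 1 | _ + 2 => 2) hS)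
      (fun v => iff_of_eq (congrArg S ?_))
    funext n
    rcases n with _ | _ | n <;> rfl
  have hQk : ∀ y, Q a k y ↔ y = b := fun y => h3 (fun _ => y)
  -- a bound in `P0`
  obtain ⟨m1, hm1, hkm⟩ := hcof k (huc hk)
  obtain ⟨m2, hm2, hbm⟩ := hcof b hb
  obtain ⟨d, hd, hkd, hbd⟩ : ∃ d ∈ P0, k < d ∧ b < d := by
    refine ⟨m1 + m2 + 1, h0.add (h0.add hm1 hm2) h0.one, ?_, ?_⟩
    · exact lt_succ_iff.mpr (hkm.trans le_self_add)
    · exact lt_succ_iff.mpr (hbm.trans le_add_self)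
  -- the code
  let T : M → Prop := fun z => ∃ i, i < d ∧ ∃ y, y < d ∧ z = pr i y ∧ Q a i y ∧
    ∀ y', y' < d → Q a i y' → y' = y
  have H := DX_sys Px
  have hdx : DF (DX Px) (fun _ => d) := DX_param (h0x hd)
  have HQ : ∀ {f g : (ℕ → M) → M}, DF (DX Px) f → DF (DX Px) g →
      DX Px (fun v => Q a (f v) (g v)) :=
    fun hf hg => H.sub3 (DX_of_empty hQ) (DX_param ha) hf hg
  have hT : DX Px (fun v => T (v 0)) := by
    apply H.ex (S := fun v i => i < d ∧ ∃ y, y < d ∧ v 0 = pr i y ∧ Q a i y ∧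
      ∀ y', y' < d → Q a i y' → y' = y)
    apply H.and (H.lt (H.var 0) hdx)
    apply H.ex (S := fun v y => y < d ∧ v 1 = pr (v 0) y ∧ Q a (v 0) y ∧
      ∀ y', y' < d → Q a (v 0) y' → y' = y)
    apply H.and (H.lt (H.var 0) hdx)
    apply H.and (H.eq (H.var 2) (H.pr (H.var 1) (H.var 0)))
    apply H.and (HQ (H.var 1) (H.var 0))
    apply H.all (S := fun v y' => y' < d → Q a (v 1) y' → y' = v 0)
    exact H.imp (H.lt (H.var 0) hdx) (H.imp (HQ (H.var 2) (H.var 0)) (H.eq (H.var 0) (H.var 1)))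
  have hTb : ∀ z, T z → z < pr d d + 1 := by
    rintro z ⟨i, hi, y, hy, rfl, _⟩
    exact lt_succ_iff.mpr (pr_mono hi.le hy.le)
  obtain ⟨g, hg, hgm⟩ := comprehension (Def_of_DX hT) (pr d d + 1)
  have hgm' : ∀ z, Mem z g ↔ T z := fun z => by
    rw [hgm]
    exact ⟨fun h => h.2, fun h => ⟨hTb z h, h⟩⟩
  have hgx : g ∈ Px := by
    refine hx g (H.congr (H.all (S := fun v z => Mem z (v 0) ↔ T z)
      (H.iff (H.mem (H.var 0) (H.var 1)) (H.sub1 hT (H.var 0)))) (fun v => ?_))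
    constructor
    · intro h
      exact mem_ext (fun z => by rw [h, hgm'])
    · intro h z
      rw [h, hgm']
  have hgc : g ∈ Pc :=
    hinit _ (huc (h0u (h0.pow2 (h0.add (h0.pr hd hd) h0.one)))) g hg.le
  have hg0 : g ∈ P0 := hinf ⟨hgx, hgc⟩
  refine hu b ((DX_sys Pu).congr ((DX_sys Pu).mem ((DX_sys Pu).pr (DX_param hk) ((DX_sys Pu).var 0))
    (DX_param (h0u hg0))) (fun v => ?_))
  rw [hgm']
  constructor
  · rintro ⟨i, _, y, _, h4, h5, _⟩
    obtain ⟨h6, h7⟩ := pair_inj h4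
    rw [← h6, ← h7, hQk] at h5
    exact h5
  · intro h
    rw [h]
    exact ⟨k, hkd, b, hbd, rfl, (hQk b).mpr rfl, fun y' _ h => (hQk y').mp h⟩

end

end Run7.h465.RL
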